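import Pool.Agent.Results.MP_c4bd3e_lc.NullMaximalSubfield
import Pool.Agent.Helper292.ForceCH

/-!
# Consistently some maximal subfield of `ℝ` avoiding `√2` is Lebesgue measurable

The continuum hypothesis can be forced, and it implies that there is a maximal subfield of `ℝ`
avoiding `√2` which is Lebesgue measurable (of measure zero). The forcing language is the one of
`Pool.Agent.Helper292.ForceCH`: a sentence is represented by the set of the conditions which force
it, with the usual clauses for the connectives.
-/

open Cardinal MeasureTheory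

namespace Pool.Agent.Results.MP_c4bd3e_lc.ConsistentlyYes

open Pool.Agent.Results.MP_c4bd3e_lc.NullMaximalSubfield

/-- (1) Some forcing notion forces, below every condition, that `ω₁` is preserved and that the
continuum hypothesis holds. (2) `√2` is irrational, and the continuum hypothesis implies that some
maximal subfield of `ℝ` avoiding `√2` is Lebesgue measurable, in fact a null set; (3) the
hypothesis that the line is not the union of fewer than continuum many meagre sets suffices. -/
theorem result :
    (∃ (P : Type) (_ : Preorder P), Nonempty P ∧ ∀ p : P,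
      p ∈ Pool.Agent.Helper292.ForceCH.OmegaOnePreserved P ∧
      p ∈ Pool.Agent.Helper292.ForceCH.CHHolds P) ∧
    (Irrational (√2) ∧ ((ℵ₁ : Cardinal.{0}) = 𝔠 →
      ∃ F : Subfield ℝ, IsMaximalAvoiding F (√2) ∧
        NullMeasurableSet (F : Set ℝ) volume ∧ volume (F : Set ℝ) = 0)) ∧
    (CovMeagreContinuum → ∃ F : Subfield ℝ, IsMaximalAvoiding F (√2) ∧
      NullMeasurableSet (F : Set ℝ) volume ∧ volume (F : Set ℝ) = 0) := by
  refine ⟨?_, ⟨irrational_sqrt_two, fun h => main (of_CH h)⟩, main⟩
  obtain ⟨P, i, h1, h2⟩ := Pool.Agent.Helper292.ForceCH.exists_forcing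
  exact ⟨P, i, h1, fun p => ⟨(h2 p).1, (h2 p).2.2⟩⟩

end Pool.Agent.Results.MP_c4bd3e_lc.ConsistentlyYes
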